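import Pool.Agent.H89.Lit.Fixed

set_option autoImplicit false

/-!
# Diagonal Ramsey numbers of colourings of given Littlestone dimension

A colouring of the edges of the complete graph on `n` vertices is a graph `G` on `Fin n` (red edges)
together with its complement (blue edges).  Its Littlestone dimension is the largest `d` for which
there is a mistake tree of depth `d` (`MistakeTree`, in `Pool/Agent/H89/Lit/Defs.lean`): the number
of mistakes which cannot be avoided in the worst case if the colours of the edges from an unknown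
vertex `v` to given vertices `x_1, x_2, …` are predicted one after the other.  It is at least the
VC-dimension of the neighbourhoods, it is finite for the stable graphs of model theory, and it can
be as large as `log₂ n`.  `RamseyLittlestone d k` is the diagonal Ramsey number for the colourings
of Littlestone dimension at most `d`.

The theorem: `log RamseyLittlestone d k = (1 + o(1)) d log (k / d)` uniformly for `1 ≪ d ≪ k`.

Upper bound: choose a vertex `x` and split the other vertices by the colour of the edge to `x`; one of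
the two parts has a smaller Littlestone dimension.  So there are at most
`C(h, 1) + ⋯ + C(h, d + 1)` vertices, `h = 2 (k - 1)`.  Lower bound: in a mistake tree of depth `a + c`
follow `a` red edges; this gives a red complete bipartite graph `K_{a, 2 ^ c}`.  A random graph of
density `1 / q` with `q ^ (a - 2)` vertices has none if `(a - 1) ^ 2 ≤ 2 ^ (c + 1)`.
-/

namespace Pool.Agent.Results.MP_28724c_co.LittlestoneDimension

open Filter Topology Pool.Agent.H89.Lit

/-- **Main result.** -/
theorem result :
    -- (1) a finite upper bound, and a finite lower bound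
    (∀ (d k n : ℕ) (G : SimpleGraph (Fin n)), 1 ≤ k → LittlestoneLe G d → NoMono G k →
      n ≤ ∑ i ∈ Finset.range (d + 1), (2 * (k - 1)).choose (i + 1)) ∧
    (∀ d q k : ℕ, 4 ≤ q → 2 * Nat.log 2 d + 3 ≤ d →
      2 * (q : ℝ) * (d * Real.log q + 1) + 1 ≤ k →
      q ^ (d - 2 * Nat.log 2 d - 2) < RamseyLittlestone d k) ∧
    -- (2) uniform asymptotics for `C ≤ d ≤ k / C`
    (∀ ε : ℝ, 0 < ε → ∃ C : ℝ, 1 ≤ C ∧ ∀ d k : ℕ, C ≤ d → C * d ≤ k →
      |Real.log (RamseyLittlestone d k) - d * Real.log (k / d)| ≤ ε * (d * Real.log (k / d))) ∧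
    -- (3) the limit form
    (∀ d : ℕ → ℕ, Tendsto d atTop atTop → Tendsto (fun k : ℕ => (d k : ℝ) / k) atTop (𝓝 0) →
      Tendsto (fun k : ℕ => Real.log (RamseyLittlestone (d k) k) / (d k * Real.log (k / d k)))
        atTop (𝓝 1)) ∧
    -- (4) fixed dimension: the Ramsey number grows like a power of `k`; the exponent is at least
    -- `d - 2 ⌊log₂ d⌋ - 2` and at most `d + 1`
    (∀ (d : ℕ) (η : ℝ), 0 < η → ∀ᶠ k : ℕ in atTop,
      ((d : ℝ) - 2 * Nat.log 2 d - 2 - η) * Real.log k ≤ Real.log (RamseyLittlestone d k) ∧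
      Real.log (RamseyLittlestone d k) ≤ ((d : ℝ) + 1 + η) * Real.log k) ∧
    -- (5) dimension `ε k`: the growth rate is at most twice the binary entropy of `ε / 2`, and it is
    -- `(1 + o(1)) ε log (1 / ε)` for `ε → 0`
    (∀ ε : ℝ, 0 < ε → ε < 1 → ∀ η : ℝ, 0 < η → ∀ᶠ k : ℕ in atTop,
      Real.log (RamseyLittlestone ⌊ε * k⌋₊ k) / k ≤ 2 * Real.binEntropy (ε / 2) + η) ∧
    (∀ δ : ℝ, 0 < δ → ∃ ε₀ : ℝ, 0 < ε₀ ∧ ∀ ε : ℝ, 0 < ε → ε ≤ ε₀ → ∀ᶠ k : ℕ in atTop,
      |Real.log (RamseyLittlestone ⌊ε * k⌋₊ k) / k - ε * Real.log (1 / ε)| ≤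
        δ * (ε * Real.log (1 / ε))) ∧
    -- (6) a colouring without one-coloured `K_k` on at least `2 ^ (k / 2)` vertices has Littlestone
    -- dimension greater than `⌊k / 13⌋`
    (∀ᶠ k : ℕ in atTop, ∀ (n : ℕ) (G : SimpleGraph (Fin n)), (2 : ℝ) ^ ((k : ℝ) / 2) ≤ n →
      NoMono G k → ¬ LittlestoneLe G (k / 13)) :=
  ⟨fun _ _ _ G hk h1 h2 => card_le_of_noMono G hk h1 h2.1 h2.2,
    fun d q k hq hd hk => lt_of_good (good_of_params d q k hq hd hk),
    lit_sharp, lit_limit,
    fun d η hη => (lit_fixed_lower d η hη).and (lit_fixed_upper d η hη),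
    fun ε hε hε1 η hη => lit_entropy ε hε hε1 η hη, lit_linear, lit_large⟩

end Pool.Agent.Results.MP_28724c_co.LittlestoneDimension
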